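import Pool.Agent.NL.StmtsA

/-!
# NLO, row ARE: the return in the case ALPHA
-/

set_option autoImplicit false

open MeasureTheory Filter Topology

noncomputable section

namespace Pool.Agent.NL.H87

/-! ### the `ℓ₁` norm -/

theorem l1_eq_sum (b : ℝ →₀ ℝ) (T : Finset ℝ) (h : b.support ⊆ T) : l1 b = ∑ x ∈ T, |b x| :=
  Finsupp.sum_of_support_subset b h _ (by simp)

theorem l1_add_le (b b' : ℝ →₀ ℝ) : l1 (b + b') ≤ l1 b + l1 b' := by
  classical
  rw [l1_eq_sum (b + b') (b.support ∪ b'.support) Finsupp.support_add,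
    l1_eq_sum b (b.support ∪ b'.support) Finset.subset_union_left,
    l1_eq_sum b' (b.support ∪ b'.support) Finset.subset_union_right, ← Finset.sum_add_distrib]
  exact Finset.sum_le_sum fun x _ => abs_add_le _ _

theorem l1_smul_le (c : ℝ) (b : ℝ →₀ ℝ) : l1 (c • b) ≤ |c| * l1 b := by
  rw [l1_eq_sum (c • b) b.support Finsupp.support_smul, l1_eq_sum b b.support subset_rfl,
    Finset.mul_sum]
  exact Finset.sum_le_sum fun x _ => by rw [Finsupp.smul_apply, smul_eq_mul, abs_mul]

theorem l1_nonneg (b : ℝ →₀ ℝ) : 0 ≤ l1 b := Finset.sum_nonneg fun _ _ => abs_nonneg _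

theorem l1_sum_le {ι : Type} (s : Finset ι) (b : ι → ℝ →₀ ℝ) :
    l1 (∑ i ∈ s, b i) ≤ ∑ i ∈ s, l1 (b i) := by
  classical
  induction s using Finset.induction_on with
  | empty => simp [l1]
  | insert i s hi ih =>
    rw [Finset.sum_insert hi, Finset.sum_insert hi]
    exact (l1_add_le _ _).trans (add_le_add le_rfl ih)

theorem l1_mapDomain_le (f : ℝ → ℝ) (b : ℝ →₀ ℝ) : l1 (Finsupp.mapDomain f b) ≤ l1 b := by
  unfold Finsupp.mapDomain Finsupp.sum
  refine (l1_sum_le _ _).trans ?_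
  rw [l1_eq_sum b b.support subset_rfl]
  refine Finset.sum_le_sum fun x _ => ?_
  simp [l1, Finsupp.sum_single_index]

theorem l1_pb {q : ℝ →₀ ℝ} (hq : Pb q) : l1 q = 1 := by
  rw [← hq.2]
  exact Finset.sum_congr rfl fun x _ => abs_of_nonneg (hq.1 x)

theorem mapDomain_nonneg (f : ℝ → ℝ) (b : ℝ →₀ ℝ) (hb : ∀ x, 0 ≤ b x) (x : ℝ) :
    0 ≤ Finsupp.mapDomain f b x := by
  rw [Finsupp.mapDomain, Finsupp.sum_apply]
  refine Finset.sum_nonneg fun y _ => ?_
  show 0 ≤ (Finsupp.single (f y) (b y)) x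
  rw [Finsupp.single_apply]
  split_ifs
  · exact hb y
  · exact le_rfl

/-- moving the mass of `P` by the map `φ` -/
theorem V_move (G : ℝ → Z) (K : Finset ℝ) (P : ℝ →₀ ℝ) (hP : P.support ⊆ K) (φ : ℝ → ℝ) :
    ∑ s ∈ K, P s • (G (φ s) - G s) = V G (Finsupp.mapDomain φ P) - V G P := by
  have h1 : V G (Finsupp.mapDomain φ P) = ∑ s ∈ K, P s • G (φ s) := by
    unfold V
    rw [Finsupp.linearCombination_mapDomain, Finsupp.linearCombination_apply]
    exact Finsupp.sum_of_support_subset P hP _ (by simp)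
  have h2 : V G P = ∑ s ∈ K, P s • G s := by
    unfold V
    rw [Finsupp.linearCombination_apply]
    exact Finsupp.sum_of_support_subset P hP _ (by simp)
  rw [h1, h2, ← Finset.sum_sub_distrib]
  exact Finset.sum_congr rfl fun s _ => smul_sub _ _ _

theorem norm_V_le {X : Type} [NormedAddCommGroup X] [NormedSpace ℝ X] {f : ℝ → X}
    {F : ℕ → StrongDual ℝ X} {G : ℝ → Z} {Ψ : X →ₗᵢ[ℝ] Z} (h : Crv f F G Ψ) (b : ℝ →₀ ℝ) :
    ‖V G b‖ ≤ l1 b := by
  unfold V l1
  rw [Finsupp.linearCombination_apply]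
  refine (norm_sum_le _ _).trans (Finset.sum_le_sum fun x _ => ?_)
  rw [norm_smul, Real.norm_eq_abs]
  exact mul_le_of_le_one_right (abs_nonneg _) (h.bdd x)

open Classical in
theorem are (hAKB : AkbStmt) : AreStmt := by
  intro X _ _ f F G Ψ a ε n u q W E N ϖ J φ T y hsit τ hτ0 hτ1 c A z hz
  have hcrv := hsit.crv
  have hmv := hsit.mv
  have hcfg := hsit.cfg
  set R : Finset ℝ := (q u).support with hR
  have hpb : Pb (q u) := hcfg.pb u hsit.hu
  have hRW : R ⊆ W := hcfg.sub u hsit.hu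
  have hN0 : 0 < N := by have := hmv.two; omega
  have hl1q : l1 (q u) = 1 := l1_pb hpb
  -- monotonicity of T
  have hTm : ∀ i j, i ≤ j → j ≤ N → T i ⊆ T j := by
    intro i j hij
    induction hij with
    | refl => exact fun _ => subset_rfl
    | @step j hij ih =>
      intro hj
      refine (ih (by omega)).trans ?_
      rw [hmv.suc j (by omega)]
      exact Finset.subset_union_left
  have hT0 : ∀ j, j ≤ N → T 0 ⊆ T j := fun j hj => hTm 0 j (Nat.zero_le _) hj
  have hWT : ∀ j, j ≤ N → W ⊆ T j := fun j hj => hmv.WT.trans (hT0 j hj)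
  -- the pieces
  set pre : ℕ → ℝ →₀ ℝ := fun i => (1 - τ) • q u + τ • Finsupp.mapDomain (J i) (q u) with hpre
  set lm : ℕ → ℝ →₀ ℝ := fun i => lam (q u) J φ τ i with hlm
  set K : ℕ → Finset ℝ := fun i => R ∪ R.image (J i) with hK
  have hlmpre : ∀ i, lm i = Finsupp.mapDomain (φ i) (pre i) := by
    intro i
    show (1 - τ) • gq (q u) φ i + τ • hq (q u) J φ i = _
    rw [hpre]
    simp only
    rw [Finsupp.mapDomain_add, Finsupp.mapDomain_smul, Finsupp.mapDomain_smul,
      ← Finsupp.mapDomain_comp]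
    rfl
  have hpre0 : ∀ i s, 0 ≤ pre i s := by
    intro i s
    show 0 ≤ ((1 - τ) • q u + τ • Finsupp.mapDomain (J i) (q u)) s
    rw [Finsupp.add_apply, Finsupp.smul_apply, Finsupp.smul_apply, smul_eq_mul, smul_eq_mul]
    have h1 := hpb.1 s
    have h2 := mapDomain_nonneg (J i) (q u) hpb.1 s
    have h3 : 0 ≤ 1 - τ := by linarith
    positivity
  have hlm0 : ∀ i s, 0 ≤ lm i s := by
    intro i s
    rw [hlmpre]
    exact mapDomain_nonneg _ _ (hpre0 i) s
  have hpreK : ∀ i, (pre i).support ⊆ K i := by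
    intro i
    refine Finsupp.support_add.trans (Finset.union_subset_union ?_ ?_)
    · exact Finsupp.support_smul
    · exact Finsupp.support_smul.trans Finsupp.mapDomain_support
  have hlmK : ∀ i, (lm i).support ⊆ (K i).image (φ i) := by
    intro i
    rw [hlmpre]
    exact Finsupp.mapDomain_support.trans (Finset.image_subset_image (hpreK i))
  have hpreT : ∀ i, i < N → (pre i).support ⊆ T 0 := by
    intro i hi
    refine (hpreK i).trans (Finset.union_subset (hRW.trans hmv.WT) ?_)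
    intro s hs
    obtain ⟨r, hr, rfl⟩ := Finset.mem_image.1 hs
    exact (hmv.Jm i hi r hr).1
  have hlmT : ∀ i j, i < j → j ≤ N → (lm i).support ⊆ T j := by
    intro i j hij hj
    refine (hlmK i).trans (Finset.Subset.trans ?_ (hTm (i + 1) j (by omega) hj))
    rw [hmv.suc i (by omega)]
    exact Finset.subset_union_right
  have hprel1 : ∀ i, l1 (pre i) ≤ 1 := by
    intro i
    refine (l1_add_le _ _).trans ?_
    have h1 := l1_smul_le (1 - τ) (q u)
    have h2 := l1_smul_le τ (Finsupp.mapDomain (J i) (q u))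
    have h3 := l1_mapDomain_le (J i) (q u)
    rw [hl1q] at h1 h3
    rw [abs_of_nonneg (by linarith)] at h1
    rw [abs_of_nonneg hτ0] at h2
    have h4 := mul_le_mul_of_nonneg_left h3 hτ0
    linarith
  have hlml1 : ∀ i, l1 (lm i) ≤ 1 := by
    intro i
    rw [hlmpre]
    exact (l1_mapDomain_le _ _).trans (hprel1 i)
  -- the vectors b k
  set D : ℕ → ℝ →₀ ℝ := fun k => ∑ i ∈ Finset.range k, ϖ i • lm i +
    ∑ i ∈ Finset.Ico k N, ϖ i • pre i with hD
  set b : ℕ → ℝ →₀ ℝ := fun k => bo n u c q + A • D k with hb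
  set z' : X := z + (A * τ) • ∑ r ∈ R, q u r • y r with hz'
  have hboW : (bo n u c q).support ⊆ W := by
    unfold bo
    refine (Finsupp.support_finsetSum).trans ?_
    intro x hx
    rw [Finset.mem_biUnion] at hx
    obtain ⟨i, hi, hx⟩ := hx
    rw [Finset.mem_erase, Finset.mem_range] at hi
    exact hcfg.sub i hi.2 (Finsupp.support_smul hx)
  have hboR : ∀ s ∈ R, bo n u c q s = 0 := by
    intro s hs
    unfold bo
    rw [Finsupp.finsetSum_apply]
    refine Finset.sum_eq_zero fun i hi => ?_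
    rw [Finset.mem_erase, Finset.mem_range] at hi
    have h1 := hcfg.dis i hi.2 u hsit.hu hi.1
    have h2 : s ∉ (q i).support := fun h => (Finset.disjoint_left.1 h1 h) hs
    rw [Finsupp.smul_apply, Finsupp.notMem_support_iff.1 h2, smul_zero]
  have hboK : ∀ k, k < N → ∀ s ∈ K k, bo n u c q s = 0 := by
    intro k hk s hs
    rcases Finset.mem_union.1 hs with hs | hs
    · exact hboR s hs
    · obtain ⟨r, hr, rfl⟩ := Finset.mem_image.1 hs
      exact Finsupp.notMem_support_iff.1 fun h => (hmv.Jm k hk r hr).2 (hboW h)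
  have hDT : ∀ k, k ≤ N → (D k).support ⊆ T k := by
    intro k hk
    refine Finsupp.support_add.trans (Finset.union_subset ?_ ?_)
    · refine (Finsupp.support_finsetSum).trans ?_
      intro x hx
      rw [Finset.mem_biUnion] at hx
      obtain ⟨i, hi, hx⟩ := hx
      rw [Finset.mem_range] at hi
      exact hlmT i k hi hk (Finsupp.support_smul hx)
    · refine (Finsupp.support_finsetSum).trans ?_
      intro x hx
      rw [Finset.mem_biUnion] at hx
      obtain ⟨i, hi, hx⟩ := hx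
      rw [Finset.mem_Ico] at hi
      exact hT0 k hk (hpreT i hi.2 (Finsupp.support_smul hx))
  have hbT : ∀ k, k ≤ N → (b k).support ⊆ T k := by
    intro k hk
    refine Finsupp.support_add.trans (Finset.union_subset (hboW.trans (hWT k hk)) ?_)
    exact Finsupp.support_smul.trans (hDT k hk)
  have hDl1 : ∀ k, k ≤ N → l1 (D k) ≤ 1 := by
    intro k hk
    have h1 : l1 (∑ i ∈ Finset.range k, ϖ i • lm i) ≤ ∑ i ∈ Finset.range k, ϖ i := by
      refine (l1_sum_le _ _).trans (Finset.sum_le_sum fun i hi => ?_)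
      rw [Finset.mem_range] at hi
      have h2 := hmv.pos i (by omega)
      have h3 := l1_smul_le (ϖ i) (lm i)
      rw [abs_of_pos h2] at h3
      exact h3.trans (mul_le_of_le_one_right h2.le (hlml1 i))
    have h2 : l1 (∑ i ∈ Finset.Ico k N, ϖ i • pre i) ≤ ∑ i ∈ Finset.Ico k N, ϖ i := by
      refine (l1_sum_le _ _).trans (Finset.sum_le_sum fun i hi => ?_)
      rw [Finset.mem_Ico] at hi
      have h2 := hmv.pos i (by omega)
      have h3 := l1_smul_le (ϖ i) (pre i)
      rw [abs_of_pos h2] at h3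
      exact h3.trans (mul_le_of_le_one_right h2.le (hprel1 i))
    have h3 := Finset.sum_range_add_sum_Ico ϖ hk
    rw [hmv.sum] at h3
    exact (l1_add_le _ _).trans (by linarith)
  have hbl1 : ∀ k, k ≤ N → l1 (b k) ≤ l1 (bo n u c q) + |A| := by
    intro k hk
    refine (l1_add_le _ _).trans ?_
    have h1 := l1_smul_le A (D k)
    have h2 := mul_le_mul_of_nonneg_left (hDl1 k hk) (abs_nonneg A)
    linarith
  -- the norms of the y r
  have hy : ∀ r ∈ R, ‖y r‖ ≤ 2 := by
    intro r hr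
    have h1 := hmv.ret r hr
    have h2 : ‖∑ i ∈ Finset.range N, ϖ i • G (J i r)‖ ≤ 1 := by
      refine (norm_sum_le _ _).trans ?_
      rw [← hmv.sum]
      refine Finset.sum_le_sum fun i hi => ?_
      have h3 := hmv.pos i (Finset.mem_range.1 hi)
      rw [norm_smul, Real.norm_eq_abs, abs_of_pos h3]
      exact mul_le_of_le_one_right h3.le (hcrv.bdd _)
    have h3 : ‖Ψ (y r)‖ ≤ ‖∑ i ∈ Finset.range N, ϖ i • G (J i r)‖ +
        ‖∑ i ∈ Finset.range N, ϖ i • G (J i r) - Ψ (y r)‖ := by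
      have := norm_sub_le (∑ i ∈ Finset.range N, ϖ i • G (J i r))
        (∑ i ∈ Finset.range N, ϖ i • G (J i r) - Ψ (y r))
      rwa [sub_sub_cancel] at this
    rw [Ψ.norm_map] at h3
    have h4 := hsit.e1
    linarith
  have hqsum : ∑ r ∈ R, q u r = 1 := hpb.2
  have hysum : ‖∑ r ∈ R, q u r • y r‖ ≤ 2 := by
    refine (norm_sum_le _ _).trans ?_
    have h1 : ∑ r ∈ R, ‖q u r • y r‖ ≤ ∑ r ∈ R, q u r * 2 := by
      refine Finset.sum_le_sum fun r hr => ?_
      rw [norm_smul, Real.norm_eq_abs, abs_of_nonneg (hpb.1 r)]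
      exact mul_le_mul_of_nonneg_left (hy r hr) (hpb.1 r)
    rw [← Finset.sum_mul, hqsum] at h1
    linarith
  have hz'n : ‖z'‖ ≤ ‖z‖ + 2 * |A| := by
    refine (norm_add_le _ _).trans ?_
    rw [norm_smul, Real.norm_eq_abs, abs_mul, abs_of_nonneg hτ0]
    have h1 : |A| * τ * ‖∑ r ∈ R, q u r • y r‖ ≤ |A| * 1 * 2 := by
      have := abs_nonneg A
      gcongr
    linarith
  have hz'E : z' ∈ E ⊔ Submodule.span ℝ (y '' R) := by
    refine Submodule.add_mem _ (Submodule.mem_sup_left hz) (Submodule.mem_sup_right ?_)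
    refine Submodule.smul_mem _ _ (Submodule.sum_mem _ fun r hr => Submodule.smul_mem _ _ ?_)
    exact Submodule.subset_span ⟨r, hr, rfl⟩
  -- one step
  have hstep : ∀ k, k < N → ‖V G (b (k + 1)) - Ψ z'‖ ≤ ‖V G (b k) - Ψ z'‖ +
      ε / N * (l1 (bo n u c q) + ‖z‖ + 3 * |A|) := by
    intro k hk
    have hP0 : ∀ s, 0 ≤ ϖ k * pre k s := fun s => mul_nonneg (hmv.pos k hk).le (hpre0 k s)
    have hPD : ∀ s, ϖ k * pre k s ≤ D k s := by
      intro s
      have hDs : D k s = ∑ i ∈ Finset.range k, (ϖ i • lm i) s +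
          ∑ i ∈ Finset.Ico k N, (ϖ i • pre i) s := by
        have h0 : D k = ∑ i ∈ Finset.range k, ϖ i • lm i + ∑ i ∈ Finset.Ico k N, ϖ i • pre i := rfl
        rw [h0, Finsupp.add_apply, Finsupp.finsetSum_apply, Finsupp.finsetSum_apply]
      rw [hDs]
      have h1 : 0 ≤ ∑ i ∈ Finset.range k, (ϖ i • lm i) s := by
        refine Finset.sum_nonneg fun i hi => ?_
        rw [Finset.mem_range] at hi
        exact mul_nonneg (hmv.pos i (by omega)).le (hlm0 i s)
      have h2 : (ϖ k • pre k) s ≤ ∑ i ∈ Finset.Ico k N, (ϖ i • pre i) s := by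
        refine Finset.single_le_sum (f := fun i => (ϖ i • pre i) s) (fun i hi => ?_) ?_
        · rw [Finset.mem_Ico] at hi
          exact mul_nonneg (hmv.pos i (by omega)).le (hpre0 i s)
        · rw [Finset.mem_Ico]
          omega
      have h3 : (ϖ k • pre k) s = ϖ k * pre k s := rfl
      linarith
    have hD0 : ∀ s, 0 ≤ D k s := fun s => (hP0 s).trans (hPD s)
    have ht : ∀ s, 0 ≤ ϖ k * pre k s / D k s ∧ ϖ k * pre k s / D k s ≤ 1 := fun s =>
      ⟨div_nonneg (hP0 s) (hD0 s), div_le_one_of_le₀ (hPD s) (hD0 s)⟩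
    have hup := hmv.up k hk (b k) (hbT k hk.le) z' hz'E (fun s => ϖ k * pre k s / D k s) ht
    have hsum : ∑ s ∈ R ∪ R.image (J k), (ϖ k * pre k s / D k s * b k s) • (G (φ k s) - G s) =
        (A * ϖ k) • (V G (lm k) - V G (pre k)) := by
      rw [hlmpre, ← V_move G (K k) (pre k) (hpreK k) (φ k), Finset.smul_sum]
      refine Finset.sum_congr rfl fun s hs => ?_
      rw [smul_smul]
      congr 1
      have h1 : b k s = A * D k s := by
        show (bo n u c q + A • D k) s = _
        rw [Finsupp.add_apply, hboK k hk s hs, zero_add]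
        rfl
      rw [h1]
      by_cases h2 : D k s = 0
      · have h3 : ϖ k * pre k s = 0 := le_antisymm (h2 ▸ hPD s) (hP0 s)
        rw [h2, mul_assoc, h3]
        simp
      · field_simp
    have hnext : V G (b (k + 1)) = V G (b k) + (A * ϖ k) • (V G (lm k) - V G (pre k)) := by
      have h1 : b (k + 1) = b k + (A * ϖ k) • (lm k - pre k) := by
        show bo n u c q + A • (∑ i ∈ Finset.range (k + 1), ϖ i • lm i +
          ∑ i ∈ Finset.Ico (k + 1) N, ϖ i • pre i) = bo n u c q +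
          A • (∑ i ∈ Finset.range k, ϖ i • lm i + ∑ i ∈ Finset.Ico k N, ϖ i • pre i) + _
        rw [Finset.sum_range_succ, Finset.sum_eq_sum_Ico_succ_bot hk, mul_smul]
        module
      rw [h1, map_add, map_smul, map_sub]
    rw [hsum, ← hnext] at hup
    refine hup.trans (add_le_add le_rfl ?_)
    refine mul_le_mul_of_nonneg_left ?_ (div_nonneg hsit.e0.le (Nat.cast_nonneg N))
    have h1 := hbl1 k hk.le
    linarith
  have hall : ∀ k, k ≤ N → ‖V G (b k) - Ψ z'‖ ≤ ‖V G (b 0) - Ψ z'‖ +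
      k * (ε / N * (l1 (bo n u c q) + ‖z‖ + 3 * |A|)) := by
    intro k
    induction k with
    | zero => intro _; simp
    | succ k ih =>
      intro hk
      have h1 := hstep k (by omega)
      have h2 := ih (by omega)
      push_cast
      linarith
  have hNN := hall N le_rfl
  have hNe : (N : ℝ) * (ε / N * (l1 (bo n u c q) + ‖z‖ + 3 * |A|)) =
      ε * (l1 (bo n u c q) + ‖z‖ + 3 * |A|) := by
    have : (N : ℝ) ≠ 0 := by exact_mod_cast hN0.ne'
    field_simp
  rw [hNe] at hNN
  -- the end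
  have hbN : b N = bo n u c q + A • ∑ i ∈ Finset.range N, ϖ i • lam (q u) J φ τ i := by
    show bo n u c q + A • (∑ i ∈ Finset.range N, ϖ i • lm i +
      ∑ i ∈ Finset.Ico N N, ϖ i • pre i) = _
    rw [Finset.Ico_self, Finset.sum_empty, add_zero]
  -- the beginning
  have hb0 : V G (b 0) - Ψ z' = (V G (bo n u c q + (A * (1 - τ)) • q u) - Ψ z) +
      (A * τ) • ∑ r ∈ R, q u r • (∑ i ∈ Finset.range N, ϖ i • G (J i r) - Ψ (y r)) := by
    have h1 : b 0 = bo n u c q + (A * (1 - τ)) • q u +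
        (A * τ) • ∑ i ∈ Finset.range N, ϖ i • Finsupp.mapDomain (J i) (q u) := by
      show bo n u c q + A • (∑ i ∈ Finset.range 0, ϖ i • lm i +
        ∑ i ∈ Finset.Ico 0 N, ϖ i • pre i) = _
      rw [Finset.range_zero, Finset.sum_empty, zero_add, ← Finset.range_eq_Ico]
      have h2 : ∑ i ∈ Finset.range N, ϖ i • pre i = (1 - τ) • q u +
          τ • ∑ i ∈ Finset.range N, ϖ i • Finsupp.mapDomain (J i) (q u) := by
        have h3 : ∀ i, ϖ i • pre i = ϖ i • ((1 - τ) • q u) +
            τ • (ϖ i • Finsupp.mapDomain (J i) (q u)) := by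
          intro i
          show ϖ i • ((1 - τ) • q u + τ • Finsupp.mapDomain (J i) (q u)) = _
          module
        rw [Finset.sum_congr rfl fun i _ => h3 i, Finset.sum_add_distrib, ← Finset.sum_smul,
          hmv.sum, one_smul, Finset.smul_sum]
      rw [h2]
      module
    have h4 : V G (∑ i ∈ Finset.range N, ϖ i • Finsupp.mapDomain (J i) (q u)) =
        ∑ r ∈ R, q u r • ∑ i ∈ Finset.range N, ϖ i • G (J i r) := by
      rw [map_sum]
      have h5 : ∀ i, V G (ϖ i • Finsupp.mapDomain (J i) (q u)) =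
          ∑ r ∈ R, (q u r * ϖ i) • G (J i r) := by
        intro i
        rw [map_smul]
        unfold V
        rw [Finsupp.linearCombination_mapDomain, Finsupp.linearCombination_apply, Finsupp.sum,
          Finset.smul_sum]
        refine Finset.sum_congr rfl fun r _ => ?_
        rw [smul_smul, mul_comm]
        rfl
      rw [Finset.sum_congr rfl fun i _ => h5 i, Finset.sum_comm]
      refine Finset.sum_congr rfl fun r _ => ?_
      rw [Finset.smul_sum]
      exact Finset.sum_congr rfl fun i _ => mul_smul _ _ _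
    have h6 : ∑ r ∈ R, q u r • (∑ i ∈ Finset.range N, ϖ i • G (J i r) - Ψ (y r)) =
        ∑ r ∈ R, q u r • ∑ i ∈ Finset.range N, ϖ i • G (J i r) - Ψ (∑ r ∈ R, q u r • y r) := by
      rw [map_sum, ← Finset.sum_sub_distrib]
      refine Finset.sum_congr rfl fun r _ => ?_
      rw [smul_sub, map_smul]
    rw [h1, map_add, map_smul (V G) (A * τ), h4, h6, hz', map_add Ψ, map_smul Ψ, smul_sub]
    abel
  have hret : ‖∑ r ∈ R, q u r • (∑ i ∈ Finset.range N, ϖ i • G (J i r) - Ψ (y r))‖ ≤ ε := by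
    refine (norm_sum_le _ _).trans ?_
    have h1 : ∑ r ∈ R, ‖q u r • (∑ i ∈ Finset.range N, ϖ i • G (J i r) - Ψ (y r))‖ ≤
        ∑ r ∈ R, q u r * ε := by
      refine Finset.sum_le_sum fun r hr => ?_
      rw [norm_smul, Real.norm_eq_abs, abs_of_nonneg (hpb.1 r)]
      exact mul_le_mul_of_nonneg_left (hmv.ret r hr) (hpb.1 r)
    rw [← Finset.sum_mul, hqsum, one_mul] at h1
    exact h1
  have hb0n : ‖V G (b 0) - Ψ z'‖ ≤ ‖V G (bo n u c q + (A * (1 - τ)) • q u) - Ψ z‖ + |A| * ε := by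
    rw [hb0]
    refine (norm_add_le _ _).trans (add_le_add le_rfl ?_)
    rw [norm_smul, Real.norm_eq_abs, abs_mul, abs_of_nonneg hτ0]
    have h1 : |A| * τ * ‖∑ r ∈ R, q u r • (∑ i ∈ Finset.range N, ϖ i • G (J i r) - Ψ (y r))‖ ≤
        |A| * 1 * ε := by
      have := abs_nonneg A
      gcongr
    linarith
  have hakb := (hAKB X f F G Ψ a ε n u q W E N ϖ J φ T y hsit c (fun _ => 0) (A * (1 - τ)) z).2
  simp only [abs_zero, Finset.sum_const_zero, zero_smul, add_zero] at hakb
  have h1 := abs_nonneg (A * (1 - τ))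
  have h2 : l1 (bo n u c q) + ‖z‖ ≤ (1 + 4 * n / a) *
      ‖V G (bo n u c q + (A * (1 - τ)) • q u) - Ψ z‖ := by linarith
  have h3 := mul_le_mul_of_nonneg_left h2 hsit.e0.le
  rw [← hbN]
  have h4 := hNN
  nlinarith [hb0n, h3, h4]

end Pool.Agent.NL.H87
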